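import Pool.Agent.helper11.OFP.Spec

set_option autoImplicit false

open MeasureTheory

namespace Pool.Agent.OFP

open Pool.Agent.LOF

theorem WDM_anti {S T : Set F} (h : S ⊆ T) : Fixp T ⊆ Fixp S :=
  fun _ ht => ⟨ht.1, ht.2.1, fun g hg => ht.2.2 g (h hg)⟩

theorem WDM (hCHN : CHN_stmt) (hHCX : HCX_stmt) : WDM_stmt := by
  intro r
  constructor
  · intro hr a b ha hab hb
    obtain ⟨C, hC, -, hfin, t, ht, hat, htb⟩ := hr a b (by exact_mod_cast ha) (by exact_mod_cast hab)
      (by exact_mod_cast hb)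
    -- an interval without fixed points of `C`
    have hopen : IsOpen (Set.Ioo (0 : ℝ) 1 \ Fixp (C : Set F)) := isOpen_Ioo.sdiff hfin.isClosed
    have hne : (Set.Ioo (0 : ℝ) 1 \ Fixp (C : Set F)).Nonempty :=
      ((Set.Ioo_infinite zero_lt_one).diff hfin).nonempty
    obtain ⟨x, hx⟩ := hne
    obtain ⟨ε, hε, hball⟩ := Metric.isOpen_iff.1 hopen x hx
    have hin : ∀ y, |y - x| < ε → (0 < y ∧ y < 1) ∧ y ∉ Fixp (C : Set F) := by
      intro y hy
      have := hball (show y ∈ Metric.ball x ε by rw [Metric.mem_ball, Real.dist_eq]; exact hy)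
      exact ⟨this.1, this.2⟩
    have h1 := (hin (x - ε / 2) (by rw [sub_sub_cancel_left, abs_neg, abs_of_pos (by linarith)]; linarith)).1
    have h2 := (hin (x + ε / 2) (by rw [add_sub_cancel_left, abs_of_pos (by linarith)]; linarith)).1
    obtain ⟨C', hC', -, hfin', t', ht', hct, htd⟩ := hr (x - ε / 2) (x + ε / 2) h1.1.le (by linarith) h2.2.le
    have ht'C : t' ∉ Fixp (C : Set F) := (hin t' (by rw [abs_lt]; constructor <;> linarith)).2
    have hnot : ¬ C ≤ C' := fun h => ht'C (WDM_anti (fun g hg => h hg) ht')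
    obtain ⟨h, hhC, hhC'⟩ := Set.not_subset.1 (fun hs : (C : Set F) ⊆ C' => hnot hs)
    obtain ⟨k1, k2, k3⟩ := hHCX r h
    have hle : C' ≤ Hc r h := by
      rcases hCHN r C' (Hc r h) hC' k1 with h' | h'
      · exact h'
      · exact absurd (h' k2) hhC'
    refine ⟨h, ?_, hfin'.subset (WDM_anti (fun g hg => hle hg)), t, ?_, hat, htb⟩
    · rintro rfl
      exact hhC' C'.one_mem
    · exact WDM_anti (fun g hg => k3 C hC hhC hg) ht
  · intro hr a b ha hab hb
    obtain ⟨a', ha1, ha2⟩ := exists_rat_btwn hab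
    obtain ⟨b', hb1, hb2⟩ := exists_rat_btwn ha2
    obtain ⟨h, hh, hfin, t, ht, h1, h2⟩ := hr a' b' (by exact_mod_cast (ha.trans ha1.le))
      (by exact_mod_cast hb1) (by exact_mod_cast (hb2.le.trans hb))
    obtain ⟨k1, k2, -⟩ := hHCX r h
    refine ⟨Hc r h, k1, ?_, hfin, t, ht, ha1.trans h1, h2.trans hb2⟩
    intro hbot
    rw [hbot, Subgroup.mem_bot] at k2
    exact hh k2

end Pool.Agent.OFP
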