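import Pool.Agent.helper11.OFP.Spec

set_option autoImplicit false

open MeasureTheory

namespace Pool.Agent.OFP

open Pool.Agent.LOF

theorem WEX_anti {S T : Set F} (h : S ⊆ T) : Fixp T ⊆ Fixp S :=
  fun _ ht => ⟨ht.1, ht.2.1, fun g hg => ht.2.2 g (h hg)⟩

theorem WEX (hCHN : CHN_stmt) (hHCX : HCX_stmt) (hWDM : WDM_stmt) : WEX_stmt := by
  intro r hr k
  rw [hWDM r] at hr
  have hone : ∀ j : ℕ, ∃ M : ℕ, j < 2 ^ k → ∀ m, M ≤ m → r ∈ Big m k j := by
    intro j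
    by_cases hj : j < 2 ^ k
    swap
    · exact ⟨0, fun h => absurd h hj⟩
    have hk : (0 : ℚ) < 2 ^ k := by positivity
    have hjk : ((j : ℚ) + 1) ≤ 2 ^ k := by exact_mod_cast hj
    obtain ⟨h1, n1, f1, p, hp, p1, p2⟩ := hr ((j : ℚ) / 2 ^ k) (((j : ℚ) + 1 / 2) / 2 ^ k) (by positivity)
      (by rw [div_lt_div_iff_of_pos_right hk]; linarith)
      (by rw [div_le_one hk]; linarith)
    obtain ⟨h2, n2, f2, q, hq, q1, q2⟩ := hr (((j : ℚ) + 1 / 2) / 2 ^ k) (((j : ℚ) + 1) / 2 ^ k) (by positivity)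
      (by rw [div_lt_div_iff_of_pos_right hk]; linarith)
      (by rw [div_le_one hk]; exact hjk)
    push_cast at p1 p2 q1 q2
    have hkr : (0 : ℝ) < 2 ^ k := by positivity
    have hpq : p < q := p2.trans q1
    have hpI : p ∈ Iv k j := by
      rw [div_lt_iff₀ hkr] at p1
      rw [lt_div_iff₀ hkr] at p2
      exact ⟨p1.le, by linarith⟩
    have hqI : q ∈ Iv k j := by
      rw [div_lt_iff₀ hkr] at q1
      rw [lt_div_iff₀ hkr] at q2
      exact ⟨by linarith, q2⟩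
    rcases hCHN r (Hc r h1) (Hc r h2) (hHCX r h1).1 (hHCX r h2).1 with h | h
    · -- `FH r h2 ⊆ FH r h1`
      refine ⟨(FH r h1).ncard, fun _ m hm => ⟨h1, n1, f1, hm, p, hp, q, ?_, hpq, hpI, hqI⟩⟩
      exact WEX_anti (fun g hg => h hg) hq
    · refine ⟨(FH r h2).ncard, fun _ m hm => ⟨h2, n2, f2, hm, p, ?_, q, hq, hpq, hpI, hqI⟩⟩
      exact WEX_anti (fun g hg => h hg) hp
  choose M hM using hone
  refine ⟨(Finset.range (2 ^ k)).sup M, fun m hm j hj => hM j hj m ?_⟩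
  exact (Finset.le_sup (Finset.mem_range.2 hj)).trans hm

end Pool.Agent.OFP
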