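import Pool.Agent.helper11.OFP.Spec

set_option autoImplicit false

open MeasureTheory

namespace Pool.Agent.OFP

open Pool.Agent.LOF

theorem BMP_X0 (u : ℝ) (h0 : 0 < u) (h1 : u < 1) : X0 u < u := by
  rw [X0_apply]
  split_ifs <;> linarith

theorem BMP (hGEN : GEN_stmt) : BMP_stmt := by
  intro a t b ha hat htb hb
  have hδ : 0 < min (t - a) (b - t) := lt_min (by linarith) (by linarith)
  obtain ⟨m, hm⟩ := exists_pow_lt_of_lt_one hδ (by norm_num : (1 / 2 : ℝ) < 1)
  have hm' : (1 : ℝ) / 2 ^ m < min (t - a) (b - t) := by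
    rwa [one_div, ← inv_pow, ← one_div]
  have hm1 := hm'.trans_le (min_le_left _ _)
  have hm2 := hm'.trans_le (min_le_right _ _)
  have hpow : (0 : ℝ) < 2 ^ m := by positivity
  have hpow1 : (0 : ℝ) < 2 ^ (m + 1) := by positivity
  have hhalf : (1 : ℝ) / 2 ^ (m + 1) = (1 / 2 ^ m) / 2 := by rw [pow_succ]; field_simp
  have hquart : 0 < (1 : ℝ) / 2 ^ m := by positivity
  set j : ℤ := ⌈t * 2 ^ (m + 1)⌉ - 1 with hj
  set c : ℝ := (j : ℝ) / 2 ^ (m + 1) with hc
  have h1 : (j : ℝ) < t * 2 ^ (m + 1) := by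
    rw [hj]
    push_cast
    have := Int.ceil_lt_add_one (t * 2 ^ (m + 1))
    linarith
  have h2 : t * 2 ^ (m + 1) ≤ (j : ℝ) + 1 := by
    rw [hj]
    push_cast
    have := Int.le_ceil (t * 2 ^ (m + 1))
    linarith
  have hct : c < t := by
    rw [hc, div_lt_iff₀ hpow1]
    exact h1
  have htc : t ≤ c + 1 / 2 ^ (m + 1) := by
    rw [hc, ← add_div, le_div_iff₀ hpow1]
    exact h2
  have hac : a < c := by linarith
  have htc2 : t < c + 1 / 2 ^ m := by linarith
  have hcb : c + 1 / 2 ^ m < b := by linarith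
  obtain ⟨g, hg1, hg2⟩ := hGEN c m ⟨j, m + 1, hc⟩ (by linarith) (by linarith)
  have hu0 : 0 < (t - c) * 2 ^ m := mul_pos (by linarith) hpow
  have hu1 : (t - c) * 2 ^ m < 1 := by
    have : t - c < 1 / 2 ^ m := by linarith
    rwa [lt_div_iff₀ hpow] at this
  have htu : c + ((t - c) * 2 ^ m) / 2 ^ m = t := by
    rw [mul_div_assoc, div_self hpow.ne', mul_one]
    ring
  have hgt : g.1 t < t := by
    have h3 := hg2 ((t - c) * 2 ^ m) hu0.le hu1.le
    rw [htu] at h3
    rw [h3]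
    have h4 := BMP_X0 _ hu0 hu1
    have h5 : X0 ((t - c) * 2 ^ m) / 2 ^ m < ((t - c) * 2 ^ m) / 2 ^ m :=
      (div_lt_div_iff_of_pos_right hpow).2 h4
    linarith
  refine ⟨g, ?_, hgt, ?_⟩
  · intro z hz
    apply hg1
    rcases hz with h | h
    · left; linarith
    · right; linarith
  · have h3 : g.1 ((g⁻¹ : F).1 t) = t := by
      have h4 : (g * g⁻¹ : F).1 t = t := by
        rw [mul_inv_cancel]
        rfl
      exact h4
    by_contra h
    push Not at h
    have h4 := g.1.monotone h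
    rw [h3] at h4
    linarith

end Pool.Agent.OFP
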